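import Pool.Agent.Helper64.HG.Stmts

/-! Module ME: the ear graph is minimal. -/

set_option autoImplicit false

namespace Pool.Agent.Helper64.HG

/-- links in induced subgraphs -/
theorem me_ip {V : Type} (G : SimpleGraph V) (S : Set V) (A : List S)
    (h : IP G (A.map Subtype.val)) : IP (G.induce S) A := by
  refine ⟨List.Nodup.of_map _ h.1, ?_⟩
  intro i j hi hj hij
  have h1 := h.2 i j (by rw [List.length_map]; exact hi) (by rw [List.length_map]; exact hj) hij
  rw [List.getElem_map, List.getElem_map] at h1
  exact h1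

theorem me_head {V : Type} (S : Set V) (A : List S) (x : S) :
    (A.map Subtype.val).head? = some (x : V) ↔ A.head? = some x := by
  rw [List.head?_map]
  cases h : A.head? with
  | none => simp
  | some y =>
    simp only [Option.map_some, Option.some.injEq]
    exact Subtype.ext_iff.symm

theorem me_last {V : Type} (S : Set V) (A : List S) (x : S) :
    (A.map Subtype.val).getLast? = some (x : V) ↔ A.getLast? = some x := by
  rw [List.getLast?_map]
  cases h : A.getLast? with
  | none => simp
  | some y =>
    simp only [Option.map_some, Option.some.injEq]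
    exact Subtype.ext_iff.symm

theorem me_link {V : Type} (G : SimpleGraph V) (S : Set V) (u w : S) (A : List S)
    (h : Link G (u : V) (A.map Subtype.val) (w : V)) : Link (G.induce S) u A w := by
  obtain ⟨h1, h2, h3, h4, h5, h6⟩ := h
  refine ⟨?_, me_ip G S A h2, ?_, ?_, ?_, ?_⟩
  · intro h
    apply h1
    rw [h]
    rfl
  · intro h
    exact h3 (List.mem_map_of_mem h)
  · intro h
    exact h4 (List.mem_map_of_mem h)
  · intro x hx
    rw [← me_head]
    exact h5 x (List.mem_map_of_mem hx)
  · intro x hx
    rw [← me_last]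
    exact h6 x (List.mem_map_of_mem hx)

theorem me_anti {V : Type} (G : SimpleGraph V) (S : Set V) (A B : List S)
    (h : Anti G (A.map Subtype.val) (B.map Subtype.val)) : Anti (G.induce S) A B := by
  intro a ha b hb
  obtain ⟨h1, h2⟩ := h a (List.mem_map_of_mem ha) b (List.mem_map_of_mem hb)
  exact ⟨fun h => h1 (congrArg Subtype.val h), h2⟩

theorem me_ic {V : Type} (G : SimpleGraph V) (S : Set V) (L : List S)
    (h : IC G (L.map Subtype.val)) : IC (G.induce S) L := by
  obtain ⟨h1, h2, h3⟩ := h
  rw [List.length_map] at h1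
  refine ⟨h1, List.Nodup.of_map _ h2, ?_⟩
  intro i j hi hj hij
  have h4 := h3 i j (by rw [List.length_map]; exact hi) (by rw [List.length_map]; exact hj) hij
  rw [List.getElem_map, List.getElem_map] at h4
  have h5 : (L.map Subtype.val).length = L.length := List.length_map _
  exact h4.trans (by rw [h5])

theorem me_girth {V : Type} (G : SimpleGraph V) (S : Set V) (h : Girth5 G) :
    Girth5 (G.induce S) := by
  refine ⟨fun a b c => h.1 a b c, fun a b c d hac hbd => h.2 a b c d ?_ ?_⟩
  · exact fun h => hac (Subtype.ext h)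
  · exact fun h => hbd (Subtype.ext h)

theorem me_lift {V : Type} (S : Set V) (A : List V) (h : ∀ x ∈ A, x ∈ S) :
    ∃ A' : List S, A'.map Subtype.val = A :=
  ⟨A.attachWith (· ∈ S) h, List.attachWith_map_subtype_val _⟩

/-- an induced cycle as induced subgraph -/
theorem me_cyc (hCYC : ST_CYC) {V : Type} [Finite V] (G : SimpleGraph V) (L : List V)
    (h : IC G L) : Circ (G.induce {x | x ∈ L}) := by
  obtain ⟨L', hL'⟩ := me_lift {x | x ∈ L} L (fun x hx => hx)
  apply hCYC _ _ L'
  · apply me_ic
    rw [hL']
    exact h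
  · intro x
    have h1 : (x : V) ∈ L'.map Subtype.val := by
      rw [hL']
      exact x.2
    obtain ⟨y, hy, hyx⟩ := List.mem_map.mp h1
    rw [← Subtype.ext hyx]
    exact hy

/-- attaching a link at its first end -/
theorem me_pend (hPS : ST_PS) {V : Type} [Finite V] (G : SimpleGraph V) (S : Set V) (A : List V)
    (u w : V) (hL : Link G u A w) (hd : ∀ x ∈ A, x ∉ S)
    (hn : ∀ x ∈ A, ∀ y ∈ S, y ≠ u → ¬ G.Adj x y) (hC : Circ (G.induce S)) :
    Circ (G.induce (S ∪ {x | x ∈ A})) := by
  apply hPS V G S A u hL.2.1 hd _ hC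
  intro x hx y hy hxy
  have h1 : y = u := by
    by_contra h
    exact hn x hx y hy h hxy
  refine ⟨?_, h1⟩
  rw [h1] at hxy
  exact (hL.2.2.2.2.1 x hx).mp hxy.symm

theorem me_one {V : Type} (G : SimpleGraph V) (x : V) : Circ (G.induce ({x} : Set V)) := by
  have hs : ∀ u v : ({x} : Set V), u = v := by
    intro u v
    exact Subtype.ext (u.2.trans v.2.symm)
  refine ⟨fun _ => 0, fun _ => 1, ?_, ?_, ?_, ?_, ?_⟩
  · intro v
    norm_num
  · intro u v _
    exact hs u v
  · intro u v _
    exact hs u v
  · intro u v
    norm_num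
  · intro u v
    constructor
    · intro h
      rw [hs u v] at h
      exact absurd h ((G.induce {x}).irrefl)
    · intro h
      rcases h with h | h
      · exact absurd h.1 (lt_irrefl _)
      · exact absurd h.1 (lt_irrefl _)

theorem me_swap {V : Type} {G : SimpleGraph V} {x0 x1 x2 : V} {F B C : List V}
    (e : ESys G x0 x1 x2 F B C) : ESys G x0 x1 x2 F C B where
  adj01 := e.adj01
  adj02 := e.adj02
  ne12 := e.ne12
  nadj12 := e.nadj12
  linkF := e.linkF
  linkB := e.linkC
  linkC := e.linkB
  FB := e.FC
  FC := e.FB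
  BC := fun a ha b hb => ⟨fun h => (e.BC b hb a ha).1 h.symm,
    fun h => (e.BC b hb a ha).2 h.symm⟩
  x2F := e.x2F
  x0B := e.x0C
  x0C := e.x0B
  lF := e.lF
  lB := e.lC
  lC := e.lB

/-- deletion of a vertex of `B` -/
theorem me_B (hTH1 : ST_TH1) (hPP : ST_PP) (hCNS : ST_CNS) (hREV : ST_REV)
    {V : Type} [Finite V] (G : SimpleGraph V) (hG : Girth5 G) (x0 x1 x2 : V) (F B C : List V)
    (e : ESys G x0 x1 x2 F B C)
    (hcov : ∀ x, x = x0 ∨ x = x1 ∨ x = x2 ∨ x ∈ F ∨ x ∈ B ∨ x ∈ C) (z : V) (hz : z ∈ B) :
    Circ (G.induce {z}ᶜ) := by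
  apply hPP V G x1 x2 z B e.linkB _ hz
  · obtain ⟨F', hF'⟩ := me_lift {x | x ∉ B} F (fun x hx h => (e.FB x hx x h).1 rfl)
    have hCr : Link G x2 C.reverse x1 := hREV V G x1 x2 C e.linkC
    have hx0C : Anti G [x0] C.reverse := by
      intro a ha b hb
      exact e.x0C a ha b (List.mem_reverse.mp hb)
    have hlink : Link G x0 (x2 :: C.reverse) x1 :=
      hCNS V G x0 x2 x1 C.reverse e.adj02 hCr hx0C e.ne12 e.nadj12
    have hx0B : x0 ∉ B := fun h => (e.x0B x0 (List.mem_singleton_self _) x0 h).1 rfl
    have hx1B : x1 ∉ B := e.linkB.2.2.1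
    have hx2B : x2 ∉ B := e.linkB.2.2.2.1
    obtain ⟨C', hC'⟩ := me_lift {x | x ∉ B} (x2 :: C.reverse) (by
      intro x hx
      rcases List.mem_cons.mp hx with h | h
      · rw [h]
        exact hx2B
      · intro hB
        exact (e.BC x hB x (List.mem_reverse.mp h)).1 rfl)
    apply hTH1 _ (G.induce {x | x ∉ B}) ⟨x0, hx0B⟩ ⟨x1, hx1B⟩ F' C' (me_girth G _ hG)
    · exact e.adj01
    · apply me_link
      rw [hF']
      exact e.linkF
    · apply me_link
      rw [hC']
      exact hlink
    · apply me_anti
      rw [hF', hC']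
      intro a ha b hb
      rcases List.mem_cons.mp hb with h | h
      · rw [h]
        have h1 := e.x2F x2 (List.mem_singleton_self _) a ha
        exact ⟨fun h => h1.1 h.symm, fun h => h1.2 h.symm⟩
      · exact e.FC a ha b (List.mem_reverse.mp h)
    · rintro ⟨x, hx⟩
      have hmF : ∀ y (hy : y ∉ B), y ∈ F → (⟨y, hy⟩ : {x | x ∉ B}) ∈ F' := by
        intro y hy hyF
        have h1 : y ∈ F'.map Subtype.val := by rw [hF']; exact hyF
        obtain ⟨t, ht, hty⟩ := List.mem_map.mp h1
        have : t = ⟨y, hy⟩ := Subtype.ext hty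
        rw [← this]
        exact ht
      have hmC : ∀ y (hy : y ∉ B), y ∈ (x2 :: C.reverse) → (⟨y, hy⟩ : {x | x ∉ B}) ∈ C' := by
        intro y hy hyC
        have h1 : y ∈ C'.map Subtype.val := by rw [hC']; exact hyC
        obtain ⟨t, ht, hty⟩ := List.mem_map.mp h1
        have : t = ⟨y, hy⟩ := Subtype.ext hty
        rw [← this]
        exact ht
      rcases hcov x with h | h | h | h | h | h
      · left
        exact Subtype.ext h
      · right; left
        exact Subtype.ext h
      · right; right; right
        exact hmC x hx (by rw [h]; exact List.mem_cons_self)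
      · right; right; left
        exact hmF x hx h
      · exact absurd h hx
      · right; right; right
        exact hmC x hx (List.mem_cons_of_mem _ (List.mem_reverse.mpr h))
  · intro x hx y hxy
    rcases hcov y with h | h | h | h | h | h
    · rw [h] at hxy
      exact absurd hxy.symm (e.x0B x0 (List.mem_singleton_self _) x hx).2
    · exact Or.inr (Or.inl h)
    · exact Or.inr (Or.inr h)
    · exact absurd hxy.symm (e.FB y h x hx).2
    · exact Or.inl h
    · exact absurd hxy (e.BC x hx y h).2

theorem st_ME (hTH1 : ST_TH1) (hTH2 : ST_TH2) (hCYC : ST_CYC) (hCY1 : ST_CY1) (hCY2 : ST_CY2)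
    (hPP : ST_PP) (hPS : ST_PS) (hCNS : ST_CNS) (hREV : ST_REV) : ST_ME := by
  intro V _ G hG hfull z
  obtain ⟨x0, x1, x2, F, B, C, e, hcov⟩ := hfull
  have hx0F : x0 ∉ F := e.linkF.2.2.1
  have hx1F : x1 ∉ F := e.linkF.2.2.2.1
  have hx1B : x1 ∉ B := e.linkB.2.2.1
  have hx2B : x2 ∉ B := e.linkB.2.2.2.1
  have hx1C : x1 ∉ C := e.linkC.2.2.1
  have hx2C : x2 ∉ C := e.linkC.2.2.2.1
  have hx2F : x2 ∉ F := fun h => (e.x2F x2 (List.mem_singleton_self _) x2 h).1 rfl
  have hx0B : x0 ∉ B := fun h => (e.x0B x0 (List.mem_singleton_self _) x0 h).1 rfl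
  have hx0C : x0 ∉ C := fun h => (e.x0C x0 (List.mem_singleton_self _) x0 h).1 rfl
  have n2F : ∀ x ∈ F, ¬ G.Adj x x2 := fun x hx h =>
    (e.x2F x2 (List.mem_singleton_self _) x hx).2 h.symm
  have n0B : ∀ x ∈ B, ¬ G.Adj x x0 := fun x hx h =>
    (e.x0B x0 (List.mem_singleton_self _) x hx).2 h.symm
  have n0C : ∀ x ∈ C, ¬ G.Adj x x0 := fun x hx h =>
    (e.x0C x0 (List.mem_singleton_self _) x hx).2 h.symm
  have nFB : ∀ x ∈ F, ∀ y ∈ B, ¬ G.Adj x y := fun x hx y hy => (e.FB x hx y hy).2
  have nFC : ∀ x ∈ F, ∀ y ∈ C, ¬ G.Adj x y := fun x hx y hy => (e.FC x hx y hy).2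
  have nBC : ∀ x ∈ B, ∀ y ∈ C, ¬ G.Adj x y := fun x hx y hy => (e.BC x hx y hy).2
  have dFB : ∀ x ∈ F, x ∉ B := fun x hx hy => (e.FB x hx x hy).1 rfl
  have dFC : ∀ x ∈ F, x ∉ C := fun x hx hy => (e.FC x hx x hy).1 rfl
  have dBC : ∀ x ∈ B, x ∉ C := fun x hx hy => (e.BC x hx x hy).1 rfl
  have h01 : x0 ≠ x1 := G.ne_of_adj e.adj01
  have h02 : x0 ≠ x2 := G.ne_of_adj e.adj02
  have h12 := e.ne12
  have hFr : Link G x1 F.reverse x0 := hREV V G x0 x1 F e.linkF
  have hBr : Link G x2 B.reverse x1 := hREV V G x1 x2 B e.linkB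
  have hCr : Link G x2 C.reverse x1 := hREV V G x1 x2 C e.linkC
  rcases hcov z with hz | hz | hz | hz | hz | hz
  · -- z = x0
    have hic := hCY2 V G x1 x2 B C e.linkB e.linkC e.BC e.ne12 e.nadj12
    have h1 := me_cyc hCYC G _ hic
    have h2 := me_pend hPS G _ F.reverse x1 x0 hFr (by
      intro x hx hS
      rw [List.mem_reverse] at hx
      simp only [Set.mem_ofPred_eq, List.mem_cons, List.mem_append, List.mem_reverse] at hS
      rcases hS with h | h | h | h
      · rw [h] at hx; exact hx1F hx
      · exact dFB x hx h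
      · rw [h] at hx; exact hx2F hx
      · exact dFC x hx h) (by
      intro x hx y hS hy
      rw [List.mem_reverse] at hx
      simp only [Set.mem_ofPred_eq, List.mem_cons, List.mem_append, List.mem_reverse] at hS
      rcases hS with h | h | h | h
      · exact absurd h hy
      · exact nFB x hx y h
      · rw [h]; exact n2F x hx
      · exact nFC x hx y h) h1
    have h3 : ({z}ᶜ : Set V) = {x | x ∈ x1 :: (B ++ x2 :: C.reverse)} ∪ {x | x ∈ F.reverse} := by
      ext x
      simp only [Set.mem_compl_iff, Set.mem_singleton_iff, Set.mem_union, Set.mem_ofPred_eq,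
        List.mem_cons, List.mem_append, List.mem_reverse]
      constructor
      · intro hx
        have := hcov x
        rw [hz] at hx
        tauto
      · rintro ((h | h | h | h) | h)
        · rw [h, hz]; exact h01.symm
        · intro h4; rw [h4, hz] at h; exact hx0B h
        · rw [h, hz]; exact h02.symm
        · intro h4; rw [h4, hz] at h; exact hx0C h
        · intro h4; rw [h4, hz] at h; exact hx0F h
    rw [h3]
    exact h2
  · -- z = x1
    have h1 := me_one G x0
    have h2 := me_pend hPS G _ F x0 x1 e.linkF (by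
      intro x hx hS
      rw [Set.mem_singleton_iff] at hS
      rw [hS] at hx
      exact hx0F hx) (by
      intro x hx y hS hy
      exact absurd hS hy) h1
    have h3 := hPS V G _ [x2] x0 (by
      refine ⟨List.nodup_singleton _, ?_⟩
      intro i j hi hj hij
      simp only [List.length_singleton] at hi hj
      omega) (by
      intro x hx hS
      rw [List.mem_singleton] at hx
      simp only [Set.mem_union, Set.mem_singleton_iff, Set.mem_ofPred_eq] at hS
      rcases hS with h | h
      · exact h02 (h.symm.trans hx)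
      · rw [hx] at h; exact hx2F h) (by
      intro x hx y hS hxy
      rw [List.mem_singleton] at hx
      simp only [Set.mem_union, Set.mem_singleton_iff, Set.mem_ofPred_eq] at hS
      rcases hS with h | h
      · exact ⟨by rw [hx]; rfl, h⟩
      · rw [hx] at hxy
        exact absurd hxy.symm (n2F y h)) h2
    have h4 := me_pend hPS G _ B.reverse x2 x1 hBr (by
      intro x hx hS
      rw [List.mem_reverse] at hx
      simp only [Set.mem_union, Set.mem_singleton_iff, Set.mem_ofPred_eq,
        List.mem_singleton] at hS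
      rcases hS with (h | h) | h
      · rw [h] at hx; exact hx0B hx
      · exact dFB x h hx
      · rw [h] at hx; exact hx2B hx) (by
      intro x hx y hS hy
      rw [List.mem_reverse] at hx
      simp only [Set.mem_union, Set.mem_singleton_iff, Set.mem_ofPred_eq,
        List.mem_singleton] at hS
      rcases hS with (h | h) | h
      · rw [h]; exact n0B x hx
      · exact fun h5 => nFB y h x hx h5.symm
      · exact absurd h hy) h3
    have h5 := me_pend hPS G _ C.reverse x2 x1 hCr (by
      intro x hx hS
      rw [List.mem_reverse] at hx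
      simp only [Set.mem_union, Set.mem_singleton_iff, Set.mem_ofPred_eq, List.mem_reverse,
        List.mem_singleton] at hS
      rcases hS with ((h | h) | h) | h
      · rw [h] at hx; exact hx0C hx
      · exact dFC x h hx
      · rw [h] at hx; exact hx2C hx
      · exact dBC x h hx) (by
      intro x hx y hS hy
      rw [List.mem_reverse] at hx
      simp only [Set.mem_union, Set.mem_singleton_iff, Set.mem_ofPred_eq, List.mem_reverse,
        List.mem_singleton] at hS
      rcases hS with ((h | h) | h) | h
      · rw [h]; exact n0C x hx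
      · exact fun h5 => nFC y h x hx h5.symm
      · exact absurd h hy
      · exact fun h5 => nBC y h x hx h5.symm) h4
    have h6 : ({z}ᶜ : Set V) = ((({x0} ∪ {x | x ∈ F}) ∪ {x | x ∈ [x2]}) ∪ {x | x ∈ B.reverse}) ∪
        {x | x ∈ C.reverse} := by
      ext x
      simp only [Set.mem_compl_iff, Set.mem_singleton_iff, Set.mem_union, Set.mem_ofPred_eq,
        List.mem_singleton, List.mem_reverse]
      constructor
      · intro hx
        have := hcov x
        rw [hz] at hx
        tauto
      · rintro ((((h | h) | h) | h) | h)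
        · rw [h, hz]; exact h01
        · intro h4; rw [h4, hz] at h; exact hx1F h
        · rw [h, hz]; exact h12.symm
        · intro h4; rw [h4, hz] at h; exact hx1B h
        · intro h4; rw [h4, hz] at h; exact hx1C h
    rw [h6]
    exact h5
  · -- z = x2
    have hic := hCY1 V G x0 x1 F e.linkF e.adj01
    have h1 := me_cyc hCYC G _ hic
    have h2 := me_pend hPS G _ B x1 x2 e.linkB (by
      intro x hx hS
      simp only [Set.mem_ofPred_eq, List.mem_cons, List.mem_append, List.not_mem_nil,
        or_false] at hS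
      rcases hS with h | h | h
      · rw [h] at hx; exact hx0B hx
      · exact dFB x h hx
      · rw [h] at hx; exact hx1B hx) (by
      intro x hx y hS hy
      simp only [Set.mem_ofPred_eq, List.mem_cons, List.mem_append, List.not_mem_nil,
        or_false] at hS
      rcases hS with h | h | h
      · rw [h]; exact n0B x hx
      · exact fun h5 => nFB y h x hx h5.symm
      · exact absurd h hy) h1
    have h3 := me_pend hPS G _ C x1 x2 e.linkC (by
      intro x hx hS
      simp only [Set.mem_union, Set.mem_ofPred_eq, List.mem_cons, List.mem_append,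
        List.not_mem_nil, or_false] at hS
      rcases hS with (h | h | h) | h
      · rw [h] at hx; exact hx0C hx
      · exact dFC x h hx
      · rw [h] at hx; exact hx1C hx
      · exact dBC x h hx) (by
      intro x hx y hS hy
      simp only [Set.mem_union, Set.mem_ofPred_eq, List.mem_cons, List.mem_append,
        List.not_mem_nil, or_false] at hS
      rcases hS with (h | h | h) | h
      · rw [h]; exact n0C x hx
      · exact fun h5 => nFC y h x hx h5.symm
      · exact absurd h hy
      · exact fun h5 => nBC y h x hx h5.symm) h2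
    have h6 : ({z}ᶜ : Set V) = ({x | x ∈ x0 :: (F ++ [x1])} ∪ {x | x ∈ B}) ∪ {x | x ∈ C} := by
      ext x
      simp only [Set.mem_compl_iff, Set.mem_singleton_iff, Set.mem_union, Set.mem_ofPred_eq,
        List.mem_cons, List.mem_append, List.not_mem_nil, or_false]
      constructor
      · intro hx
        have := hcov x
        rw [hz] at hx
        tauto
      · rintro (((h | h | h) | h) | h)
        · rw [h, hz]; exact h02
        · intro h4; rw [h4, hz] at h; exact hx2F h
        · rw [h, hz]; exact h12
        · intro h4; rw [h4, hz] at h; exact hx2B h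
        · intro h4; rw [h4, hz] at h; exact hx2C h
    rw [h6]
    exact h3
  · -- z in F
    apply hPP V G x0 x1 z F e.linkF _ hz
    · obtain ⟨B', hB'⟩ := me_lift {x | x ∉ F} B (fun x hx h => dFB x h hx)
      obtain ⟨C', hC'⟩ := me_lift {x | x ∉ F} C (fun x hx h => dFC x h hx)
      apply hTH2 _ (G.induce {x | x ∉ F}) ⟨x1, hx1F⟩ ⟨x2, hx2F⟩ ⟨x0, hx0F⟩ B' C'
        (me_girth G _ hG)
      · exact e.adj01
      · exact e.adj02
      · exact fun h => e.ne12 (congrArg Subtype.val h)
      · apply me_link
        rw [hB']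
        exact e.linkB
      · apply me_link
        rw [hC']
        exact e.linkC
      · apply me_anti
        rw [hB', hC']
        exact e.BC
      · apply me_anti
        rw [hB']
        exact e.x0B
      · apply me_anti
        rw [hC']
        exact e.x0C
      · rintro ⟨x, hx⟩
        have hm : ∀ (A : List V) (A' : List {x | x ∉ F}), A'.map Subtype.val = A →
            ∀ y (hy : y ∉ F), y ∈ A → (⟨y, hy⟩ : {x | x ∉ F}) ∈ A' := by
          intro A A' hA y hy hyA
          have h1 : y ∈ A'.map Subtype.val := by rw [hA]; exact hyA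
          obtain ⟨t, ht, hty⟩ := List.mem_map.mp h1
          have : t = ⟨y, hy⟩ := Subtype.ext hty
          rw [← this]
          exact ht
        rcases hcov x with h | h | h | h | h | h
        · exact Or.inr (Or.inr (Or.inl (Subtype.ext h)))
        · exact Or.inl (Subtype.ext h)
        · exact Or.inr (Or.inl (Subtype.ext h))
        · exact absurd h hx
        · exact Or.inr (Or.inr (Or.inr (Or.inl (hm B B' hB' x hx h))))
        · exact Or.inr (Or.inr (Or.inr (Or.inr (hm C C' hC' x hx h))))
    · intro x hx y hxy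
      rcases hcov y with h | h | h | h | h | h
      · exact Or.inr (Or.inl h)
      · exact Or.inr (Or.inr h)
      · rw [h] at hxy
        exact absurd hxy (n2F x hx)
      · exact Or.inl h
      · exact absurd hxy (nFB x hx y h)
      · exact absurd hxy (nFC x hx y h)
  · exact me_B hTH1 hPP hCNS hREV G hG x0 x1 x2 F B C e hcov z hz
  · exact me_B hTH1 hPP hCNS hREV G hG x0 x1 x2 F C B (me_swap e) (by
      intro x
      have := hcov x
      tauto) z hz

end Pool.Agent.Helper64.HG
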